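import Mathlib
import Pool.Agent.MP_8bdec9_gt.GDefs
import Pool.Agent.MP_8bdec9_gt.GFinal
import Pool.Agent.MP_8bdec9_gt.OneShot

/-! Hopf fields are exactly the volume minimisers of length `r` on every spherical space form
`S^(2m+1) / G` with `G` nontrivial. -/

open Pool.Agent.MP_8bdec9_gt

theorem Pool.Agent.Results.MP_8bdec9_gt.HopfMinimisers.result
    (E : Type) [NormedAddCommGroup E] [InnerProductSpace ℝ E] [FiniteDimensional ℝ E]
    [MeasurableSpace E] [BorelSpace E] (m : ℕ) (hE : Module.finrank ℝ E = 2 * m + 2)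
    (c : ℝ) (hc : 0 < c) (G : Subgroup (E ≃ₗᵢ[ℝ] E)) [Finite G] (hG : G ≠ ⊥)
    (hfree : Sp.ActsFreely c G) (r : ℝ) (hr : 0 < r) :
    (∃ V, Sp.IsField c G r V ∧ Sp.IsKilling c V) ∧
    ∀ V, Sp.IsField c G r V →
      (Sp.Vol (2 * m + 1) c G V = sInf (Sp.Vol (2 * m + 1) c G '' {W | Sp.IsField c G r W}) ↔
        Sp.IsKilling c V) :=
  Sp.final_of (unitFieldBound_of (sphereBound_of (coneBound_of oneShot))) m hE c hc G hG hfree r hr
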